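import Pool.Agent.Helper76.Freq.Bridge

/-!
# The global mean frequency depends on the coefficient field

The definitions are in `Pool.Agent.Helper76.Freq.Stmt` (metrics, lengths, cubical homology,
critical levels, mean frequency) and in the first part of `Pool.Agent.Helper76.Freq.Defs` (loops,
natural topologies).  Natural topologies exist by `Pool.Agent.Helper76.Freq.natural_uniform`.

Idea of the proof.  The metric is `g = ⟨·,·⟩ + R² dτ²` on `S^6`, where `τ` is a smooth function that
is locally constant away from a neighbourhood of a hypersurface which separates `S^6` into two
parts, each of them homotopy equivalent to the suspension of the real projective plane (the unit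
sphere of the symmetric traceless `3 × 3` matrices is cut by the sign of the determinant, and then
suspended twice, once for each sign).  A loop of length at most `a` crosses the hypersurface at
most `a / R` times.  Over `ℚ` both parts are acyclic and there are nonzero classes of degree `5 m`
(`m` odd) of loops with only `m + 1` crossings.  Over `ZMod 2` there are cochains `A`, `B` of
degrees 3 and 4 supported near two levels, such that the cyclic words `[w | A | B | A | B | ⋯]`
(`w` of degree 6, supported near a third level), iterated integrals in discrete form, detect
nonzero classes of degree `5 m`, all of whose cycles contain loops with at least `2 m - 3`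
crossings.  So `deg / cr` is at least about `5 / (R + 48)` for some classes over `ℚ`, and at most
about `5 / (2 R)` for some classes over `ZMod 2`.
-/

namespace Pool.Agent.Results.MP_5f815a_gt.FieldDependence

open Pool.Agent.Helper76.Freq

/-- There is a Riemannian metric on `S^6` whose global mean frequencies with respect to `ℚ` and to
the field with two elements are different. -/
theorem result : ∃ (g : RMetric 6) (A B : ℝ), 0 < B ∧ B < A ∧
    ∀ T : TopologicalSpace (Loop 6), Natural T →
      (∀ D : ℕ, ∃ d ≥ D, ∃ z : Cube (Loop 6) d →₀ ℚ, IsNonzeroClass z ∧
        0 < crit g z ∧ A ≤ d / crit g z) ∧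
      (∀ D : ℕ, ∃ d ≥ D, ∃ z : Cube (Loop 6) d →₀ ZMod 2, IsNonzeroClass z ∧
        0 < crit g z ∧ d / crit g z ≤ B) ∧
      (∀ α : ℝ, IsMeanFrequency g ℚ α → A ≤ α) ∧
      (∀ α : ℝ, IsMeanFrequency g (ZMod 2) α → α ≤ B) :=
  ⟨(gR 1000).toR, 4 / 1000, 3 / 1000, by norm_num, by norm_num, fun T hT =>
    ⟨exists_cycle_Q T hT, exists_cycle_F2 T hT, fun _ h => h.ge (exists_cycle_Q T hT),
      fun _ h => h.le (exists_cycle_F2 T hT)⟩⟩

end Pool.Agent.Results.MP_5f815a_gt.FieldDependence
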